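import Pool.Agent.Run7.h462.KT.Bas
import Pool.Agent.N792.ShpA

/-!
# Project KT (helper462), piece AVK: the first moment of the truncated singular series (helper824)

Adapted from `Pool/Agent/Run7/h704/BPD/AV.lean`.
-/

set_option autoImplicit false

namespace Run7.h824.KT

open Finset Filter Topology Polynomial
open Pool.Agent.H373R2.T7 (pz Vz mem_pz Vz_pos)
open Pool.Agent.TH204.WR (rho flp prod_nonneg' rho_le)
open Run7.h462.KT (Q rk gk Pk sh inj S_GA S_AVK eval_Q natDegree_Q_le dvd_Q Vz_gk gk_nonneg)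

theorem dvd_of_rho' (F : ℤ[X]) (p : ℕ) (hp : 0 < p) (h : p ≤ rho F 0 p) (n : ℤ) : (p : ℤ) ∣ F.eval n := by
  have h1 : ((range p).filter (fun b : ℕ => (p : ℤ) ∣ F.eval (b : ℤ) + 0)) = range p := by
    refine eq_of_subset_of_card_le (filter_subset _ _) ?_
    rw [card_range]
    exact h
  have hp0 : (0 : ℤ) < p := by exact_mod_cast hp
  have h2 : (n % p).toNat ∈ range p := by
    rw [mem_range]
    have := Int.emod_lt_of_pos n hp0
    have := Int.emod_nonneg n hp0.ne'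
    omega
  rw [← h1, mem_filter] at h2
  have h3 := h2.2
  rw [Int.toNat_of_nonneg (Int.emod_nonneg n hp0.ne')] at h3
  have h4 : (p : ℤ) ∣ F.eval n - F.eval (n % p) := by
    refine dvd_trans ?_ (sub_dvd_eval_sub n (n % p) F)
    exact Int.dvd_self_sub_emod
  have h5 := dvd_add h4 h3
  have e : F.eval n - F.eval (n % p) + (F.eval (n % p) + 0) = F.eval n := by ring
  rwa [e] at h5

/-- the same product, as a value of the linear tuple -/
theorem eval_Q_sh {k : ℕ} (F : ℤ[X]) (y : ℕ) (h : Fin k → ℕ) (n : ℤ) :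
    (Q F (sh y h)).eval n = (Q (X : ℤ[X]) h).eval (F.eval n + y) := by
  rw [eval_Q, eval_Q]
  refine prod_congr rfl fun i _ => ?_
  unfold sh
  rw [eval_X]
  push_cast
  ring

/-- **AVK.** -/
theorem avk (F : ℤ[X]) (k : ℕ) (hd : 1 ≤ F.natDegree) (hk : 1 ≤ k) (hGA : S_GA k) : S_AVK F k := by
  classical
  intro E θ hθ
  obtain ⟨η, hη, hη1, hηη⟩ : ∃ η : ℝ, 0 < η ∧ η ≤ 1 ∧ η ≤ θ / 3 :=
    ⟨min (θ / 3) 1, lt_min (by positivity) one_pos, min_le_right _ _, min_le_left _ _⟩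
  obtain ⟨H₀, w₀, hG⟩ := hGA η hη
  obtain ⟨C1, y1, hC1, hy1, H1⟩ := flp (k * F.natDegree) (Nat.mul_pos hk hd)
  obtain ⟨C2, y2, hC2, hy2, H2⟩ := flp k hk
  -- the relative error
  obtain ⟨b0, hb0⟩ := exists_pow_lt_of_lt_one (show 0 < η / 20 by positivity)
    (show (1 / 2 : ℝ) < 1 by norm_num)
  obtain ⟨b, hb⟩ : ∃ b : ℕ, b = C1 + C2 + b0 := ⟨_, rfl⟩
  have hbε : 2 * (1 / 2 : ℝ) ^ b ≤ η / 10 := by
    have : (1 / 2 : ℝ) ^ b ≤ (1 / 2 : ℝ) ^ b0 :=
      pow_le_pow_of_le_one (by norm_num) (by norm_num) (by omega)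
    linarith
  obtain ⟨M, hM⟩ : ∃ M : ℕ, M = C1 * b + C2 * b := ⟨_, rfl⟩
  obtain ⟨A₁, hA₁⟩ := eventually_atTop.1
    ((Pool.Agent.TH204.WR.evt_log_pow (E * M) 1 one_pos).and
      ((Pool.Agent.TH204.WR.evt_log_ge ((y1 : ℝ) + y2 + w₀ + 2))))
  refine ⟨A₁ + 1, H₀, fun A hA w hw1 hw2 H hH => ?_⟩
  obtain ⟨hlp, hlg⟩ := hA₁ A (by omega)
  have hA0 : (0 : ℝ) < A := by exact_mod_cast (by omega : 0 < A)
  have hy1r : (0 : ℝ) ≤ y1 := Nat.cast_nonneg _
  have hy2r : (0 : ℝ) ≤ y2 := Nat.cast_nonneg _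
  have hw0r : (0 : ℝ) ≤ w₀ := Nat.cast_nonneg _
  have hw12 : (y1 : ℝ) + y2 + w₀ + 2 ≤ w := hlg.trans hw1
  have hwy1 : y1 ≤ w := by
    have : (y1 : ℝ) ≤ w := by linarith
    exact_mod_cast this
  have hwy2 : y2 ≤ w := by
    have : (y2 : ℝ) ≤ w := by linarith
    exact_mod_cast this
  have hww0 : w₀ ≤ w := by
    have : (w₀ : ℝ) ≤ w := by linarith
    exact_mod_cast this
  have hwM : (w : ℝ) ^ M ≤ A := by
    calc (w : ℝ) ^ M ≤ (Real.log A ^ E) ^ M := by gcongr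
      _ = Real.log A ^ (E * M) := by rw [← pow_mul]
      _ ≤ A := by
          have h1 := hlp
          simpa using h1
  have hw1' : (1 : ℝ) ≤ w := by linarith
  have hwc1 : w ^ (C1 * b) ≤ A := by
    have : (w : ℝ) ^ (C1 * b) ≤ A :=
      (pow_le_pow_right₀ hw1' (by omega)).trans hwM
    exact_mod_cast this
  have hwc2 : w ^ (C2 * b) ≤ A := by
    have : (w : ℝ) ^ (C2 * b) ≤ A :=
      (pow_le_pow_right₀ hw1' (by omega)).trans hwM
    exact_mod_cast this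
  obtain ⟨ε, hε⟩ : ∃ ε : ℝ, ε = η / 10 := ⟨_, rfl⟩
  rw [← hε] at hbε
  have hε0 : 0 < ε := by rw [hε]; positivity
  have hV := Vz_pos w
  have hVk : 0 < Vz w ^ k := pow_pos hV k
  -- the bound for a fixed tuple
  have key : ∀ h : Fin k → ℕ, (1 - ε) * ∑ y ∈ Icc 1 A, gk F (sh y h) w ≤
      (1 + ε) * A * gk (X : ℤ[X]) h w := by
    intro h
    -- every `y`
    have k1 : ∀ y ∈ Icc 1 A, (1 - ε) * ((A : ℝ) * (Vz w ^ k * gk F (sh y h) w)) ≤
        (#((Icc 1 A).filter (fun n : ℕ => ∀ p ∈ pz w, ¬ (p : ℤ) ∣ (Q F (sh y h)).eval (n : ℤ) + 0)) : ℝ) := by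
      intro y _
      rw [Vz_gk]
      show (1 - ε) * ((A : ℝ) * ∏ p ∈ pz w, (1 - (rho (Q F (sh y h)) 0 p : ℝ) / p)) ≤ _
      by_cases hrho : ∀ p ∈ pz w, rho (Q F (sh y h)) 0 p < p
      · have h0 := H1 (Q F (sh y h)) 0 (natDegree_Q_le F _) b (by omega) w hwy1 hrho A hwc1 0
        simp only [zero_add] at h0
        have h1 := (abs_le.1 h0).1
        have h2 := prod_nonneg' (Q F (sh y h)) 0 w
        have h3 : 0 ≤ (A : ℝ) * ∏ p ∈ pz w, (1 - (rho (Q F (sh y h)) 0 p : ℝ) / p) := mul_nonneg hA0.le h2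
        have h4 := mul_le_mul_of_nonneg_right hbε h3
        linarith
      · push Not at hrho
        obtain ⟨p, hp, hrp⟩ := hrho
        have hp' := mem_pz.1 hp
        have hp0 : (0 : ℝ) < p := by exact_mod_cast hp'.2.pos
        have h1 : ∏ p ∈ pz w, (1 - (rho (Q F (sh y h)) 0 p : ℝ) / p) = 0 := by
          refine prod_eq_zero hp ?_
          have : rho (Q F (sh y h)) 0 p = p := le_antisymm (rho_le _ _ p) hrp
          rw [this, div_self hp0.ne', sub_self]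
        rw [h1, mul_zero, mul_zero]
        exact Nat.cast_nonneg _
    -- every `n`
    have k2 : ∀ n ∈ Icc 1 A, (#((Icc 1 A).filter (fun y : ℕ => ∀ p ∈ pz w, ¬ (p : ℤ) ∣ (Q F (sh y h)).eval (n : ℤ) + 0)) : ℝ) ≤
        (1 + ε) * (A * (Vz w ^ k * gk (X : ℤ[X]) h w)) := by
      intro n _
      rw [Vz_gk]
      show _ ≤ (1 + ε) * ((A : ℝ) * ∏ p ∈ pz w, (1 - (rho (Q (X : ℤ[X]) h) 0 p : ℝ) / p))
      have h2 := prod_nonneg' (Q (X : ℤ[X]) h) 0 w
      have h3 : 0 ≤ (A : ℝ) * ∏ p ∈ pz w, (1 - (rho (Q (X : ℤ[X]) h) 0 p : ℝ) / p) := mul_nonneg hA0.le h2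
      simp only [eval_Q_sh]
      by_cases hrho : ∀ p ∈ pz w, rho (Q (X : ℤ[X]) h) 0 p < p
      · have hX := natDegree_Q_le (X : ℤ[X]) h
        rw [natDegree_X, mul_one] at hX
        have h0 := H2 (Q (X : ℤ[X]) h) 0 hX b (by omega) w hwy2 hrho A hwc2 (F.eval (n : ℤ))
        have h1 := (abs_le.1 h0).2
        have h4 := mul_le_mul_of_nonneg_right hbε h3
        linarith
      · push Not at hrho
        obtain ⟨p, hp, hrp⟩ := hrho
        have h1 : (Icc 1 A).filter (fun y : ℕ => ∀ p ∈ pz w, ¬ (p : ℤ) ∣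
            (Q (X : ℤ[X]) h).eval (F.eval (n : ℤ) + y) + 0) = ∅ := by
          rw [filter_eq_empty_iff]
          intro y _ hc
          refine hc p hp ?_
          rw [add_zero]
          exact dvd_of_rho' _ p (mem_pz.1 hp).2.pos hrp _
        rw [h1, card_empty, Nat.cast_zero]
        positivity
    -- double counting
    have k3 : ∑ y ∈ Icc 1 A, (#((Icc 1 A).filter (fun n : ℕ => ∀ p ∈ pz w, ¬ (p : ℤ) ∣ (Q F (sh y h)).eval (n : ℤ) + 0)) : ℝ) =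
        ∑ n ∈ Icc 1 A, (#((Icc 1 A).filter (fun y : ℕ => ∀ p ∈ pz w, ¬ (p : ℤ) ∣ (Q F (sh y h)).eval (n : ℤ) + 0)) : ℝ) := by
      simp only [card_filter, Nat.cast_sum]
      exact sum_comm
    have k4 : (1 - ε) * ((A : ℝ) * (Vz w ^ k * ∑ y ∈ Icc 1 A, gk F (sh y h) w)) ≤
        A * ((1 + ε) * (A * (Vz w ^ k * gk (X : ℤ[X]) h w))) := by
      have h1 := sum_le_sum k1
      rw [k3] at h1
      have h2 := h1.trans (sum_le_sum k2)
      rw [sum_const, Nat.card_Icc, nsmul_eq_mul, ← mul_sum, ← mul_sum, ← mul_sum] at h2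
      simpa using h2
    have h1 : 0 < (A : ℝ) * Vz w ^ k := mul_pos hA0 hVk
    refine le_of_mul_le_mul_left ?_ h1
    calc (A : ℝ) * Vz w ^ k * ((1 - ε) * ∑ y ∈ Icc 1 A, gk F (sh y h) w) =
          (1 - ε) * ((A : ℝ) * (Vz w ^ k * ∑ y ∈ Icc 1 A, gk F (sh y h) w)) := by ring
      _ ≤ A * ((1 + ε) * (A * (Vz w ^ k * gk (X : ℤ[X]) h w))) := k4
      _ = A * Vz w ^ k * ((1 + ε) * A * gk (X : ℤ[X]) h w) := by ring
  obtain ⟨S, hS⟩ : ∃ S : ℝ, S = ∑ h ∈ inj k H, ∑ y ∈ Icc 1 A, gk F (sh y h) w := ⟨_, rfl⟩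
  rw [← hS]
  have k5 : (1 - ε) * S ≤ (1 + ε) * A * ((1 + η) * (H : ℝ) ^ k) := by
    have h1 := sum_le_sum fun h (_ : h ∈ inj k H) => key h
    rw [← mul_sum, ← mul_sum, ← hS] at h1
    refine h1.trans ?_
    exact mul_le_mul_of_nonneg_left (hG H hH w hww0) (by positivity)
  have r5 : (1 + ε) ≤ (1 - ε) * (1 + η) := by
    have e2 : η * η ≤ 1 * η := by gcongr
    rw [hε]
    nlinarith
  have r7 : 0 < 1 - ε := by
    rw [hε]
    linarith
  have hHk : (0 : ℝ) ≤ (H : ℝ) ^ k := by positivity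
  have r8 : (1 - ε) * S ≤ (1 - ε) * ((1 + η) * (1 + η) * (A * (H : ℝ) ^ k)) := by
    refine k5.trans ?_
    calc (1 + ε) * (A : ℝ) * ((1 + η) * (H : ℝ) ^ k) ≤ ((1 - ε) * (1 + η)) * A * ((1 + η) * (H : ℝ) ^ k) := by
          gcongr
      _ = _ := by ring
  have r9 := le_of_mul_le_mul_left r8 r7
  refine r9.trans ?_
  have r10 : (1 + η) * (1 + η) ≤ 1 + θ := by nlinarith
  exact mul_le_mul_of_nonneg_right r10 (by positivity)

end Run7.h824.KT
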