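import Pool.Agent.Run7.h462.KT.Bas
import Pool.Agent.Run7.h704.BPD.SQ

/-!
# Project KT (helper462), piece SQK: the second moment of the truncated singular series (helper824)

Adapted from `Pool/Agent/Run7/h704/BPD/SQ.lean`.
-/

set_option autoImplicit false

namespace Run7.h824.KT

open Finset Filter Topology Polynomial
open Pool.Agent.H373R2.T7 (pz Vz mem_pz Vz_pos)
open Pool.Agent.TH204.WR (rho)
open Pool.Agent.N792 (V1)
open Run7.h462.KT (Q rk gk Pk sh inj ov S_OV S_SQK eval_Q rk_le rk_le_deg rk_X_le rk_X_eq sum_rk_sh one_sub_nonneg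
  one_sub_le_one prodk_nonneg gk_nonneg gk_eq_prod)
open Run7.h704.BPD (crt_prod sum_Icc_le)

variable {k : ℕ}

theorem rk_per (F : ℤ[X]) (h : Fin k → ℕ) (p : ℕ) : Function.Periodic (fun y : ℕ => rk F (sh y h) p) p := by
  intro y
  simp only
  unfold rk rho
  congr 1
  refine filter_congr fun x _ => ?_
  rw [add_zero, add_zero, eval_Q, eval_Q, Int.dvd_iff_emod_eq_zero, Int.dvd_iff_emod_eq_zero,
    prod_int_mod, prod_int_mod _ _ (fun i => eval (x : ℤ) F + ((sh y h i : ℕ) : ℤ))]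
  have e : ∀ i : Fin k, (eval (x : ℤ) F + ((sh (y + p) h i : ℕ) : ℤ)) % (p : ℤ) =
      (eval (x : ℤ) F + ((sh y h i : ℕ) : ℤ)) % (p : ℤ) := by
    intro i
    have e1 : eval (x : ℤ) F + ((sh (y + p) h i : ℕ) : ℤ) = (eval (x : ℤ) F + ((sh y h i : ℕ) : ℤ)) + p := by
      unfold sh
      push_cast
      ring
    rw [e1, Int.add_emod_right]
  simp only [e]

theorem locK (F : ℤ[X]) (hl : F.leadingCoeff ≠ 0) (hd : 1 ≤ F.natDegree) (h : Fin k → ℕ) (p : ℕ) [Decidable (ov h p)]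
    (hp : p.Prime) (hlp : F.leadingCoeff.natAbs < p) :
    ∑ y ∈ range p, ((1 - (rk F (sh y h) p : ℝ) / p) / (1 - 1 / (p : ℝ)) ^ k) ^ 2 ≤
      p * ((1 + 4 ^ k * (k * (k * F.natDegree)) / (p : ℝ) ^ 2) *
        (if ov h p then 1 + 4 ^ k * (2 * k + k * (k * F.natDegree)) / (p : ℝ) else 1)) := by
  have hp2 : (2 : ℝ) ≤ p := by exact_mod_cast hp.two_le
  have hp0 : (0 : ℝ) < p := by linarith
  obtain ⟨D, hD⟩ : ∃ D : ℝ, D = k * F.natDegree := ⟨_, rfl⟩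
  obtain ⟨ν, hν⟩ : ∃ ν : ℝ, ν = (rk (X : ℤ[X]) h p : ℝ) := ⟨_, rfl⟩
  have hD0 : 0 ≤ D := by rw [hD]; positivity
  have hk0 : (0 : ℝ) ≤ k := Nat.cast_nonneg _
  have hν0 : 0 ≤ ν := by rw [hν]; positivity
  have hνk : ν ≤ k := by rw [hν]; exact_mod_cast rk_X_le h hp
  have hS : ∑ y ∈ range p, (rk F (sh y h) p : ℝ) = p * ν := by
    rw [hν]
    exact_mod_cast sum_rk_sh F h hp
  have h1 : ∀ y ∈ range p, (1 - (rk F (sh y h) p : ℝ) / p) ^ 2 ≤
      1 - (rk F (sh y h) p : ℝ) * (2 / p - D / p ^ 2) := by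
    intro y _
    have h2 : (rk F (sh y h) p : ℝ) ≤ D := by
      rw [hD]
      exact_mod_cast rk_le_deg F (sh y h) hp hd hlp hl
    have h3 : (0 : ℝ) ≤ rk F (sh y h) p := Nat.cast_nonneg _
    have h4 : (rk F (sh y h) p : ℝ) ^ 2 ≤ D * rk F (sh y h) p := by nlinarith
    have h5 : (rk F (sh y h) p : ℝ) ^ 2 / p ^ 2 ≤ D * rk F (sh y h) p / p ^ 2 := by gcongr
    calc (1 - (rk F (sh y h) p : ℝ) / p) ^ 2 =
          1 - 2 * (rk F (sh y h) p : ℝ) / p + (rk F (sh y h) p : ℝ) ^ 2 / p ^ 2 := by ring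
      _ ≤ 1 - 2 * (rk F (sh y h) p : ℝ) / p + D * rk F (sh y h) p / p ^ 2 := by linarith
      _ = _ := by ring
  have h2 : ∑ y ∈ range p, (1 - (rk F (sh y h) p : ℝ) / p) ^ 2 ≤
      (p : ℝ) * (1 - 2 * ν / p + ν * D / p ^ 2) := by
    refine (sum_le_sum h1).trans (le_of_eq ?_)
    rw [sum_sub_distrib, ← sum_mul, sum_const, card_range, nsmul_eq_mul, mul_one, hS]
    ring
  obtain ⟨u, hu⟩ : ∃ u : ℝ, u = ((1 - 1 / (p : ℝ)) ^ k) ^ 2 := ⟨_, rfl⟩
  have h3 : ∑ y ∈ range p, ((1 - (rk F (sh y h) p : ℝ) / p) / (1 - 1 / (p : ℝ)) ^ k) ^ 2 =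
      (∑ y ∈ range p, (1 - (rk F (sh y h) p : ℝ) / p) ^ 2) / u := by
    rw [sum_div]
    refine sum_congr rfl fun a _ => ?_
    rw [div_pow, hu]
  have hq : 1 / (p : ℝ) ≤ 1 / 2 := one_div_le_one_div_of_le (by norm_num) hp2
  have hq0 : 0 < 1 / (p : ℝ) := by positivity
  have hu4 : 1 ≤ 4 ^ k * u := by
    have e1 : (4 : ℝ) ^ k * u = (4 * (1 - 1 / (p : ℝ)) ^ 2) ^ k := by
      rw [hu, ← pow_mul, mul_comm k 2, pow_mul, ← mul_pow]
    rw [e1]
    refine one_le_pow₀ ?_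
    nlinarith
  have hu0 : 0 < u := by
    rw [hu]
    have : 0 < 1 - 1 / (p : ℝ) := by linarith
    positivity
  have hub : 1 - 2 * k / (p : ℝ) ≤ u := by
    have e1 : u = (1 + (-(1 / (p : ℝ)))) ^ (2 * k) := by
      rw [hu, ← pow_mul, mul_comm k 2, ← sub_eq_add_neg]
    rw [e1]
    refine le_trans (le_of_eq ?_) (one_add_mul_le_pow (by linarith) (2 * k))
    push_cast
    ring
  rw [h3, div_le_iff₀ hu0]
  refine h2.trans ?_
  rw [mul_assoc]
  refine mul_le_mul_of_nonneg_left ?_ hp0.le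
  rw [← hD]
  have hkD : 0 ≤ k * D / (p : ℝ) ^ 2 := by positivity
  have g1 : 1 - 2 * k / (p : ℝ) + k * D / p ^ 2 ≤ (1 + 4 ^ k * (k * D) / (p : ℝ) ^ 2) * u := by
    have e1 : (1 + 4 ^ k * (k * D) / (p : ℝ) ^ 2) * u = u + (4 ^ k * u) * (k * D / (p : ℝ) ^ 2) := by ring
    rw [e1]
    have := mul_le_mul_of_nonneg_right hu4 hkD
    linarith
  have hνD : ν * D / (p : ℝ) ^ 2 ≤ k * D / p ^ 2 := by gcongr
  by_cases hov : ov h p
  · rw [if_pos hov]
    have hν1 : 0 ≤ 2 * ν / (p : ℝ) := by positivity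
    have hpp : k * D / (p : ℝ) ^ 2 ≤ k * D / p := by
      refine div_le_div_of_nonneg_left (by positivity) hp0 ?_
      nlinarith
    have g2 : 1 + k * D / (p : ℝ) ≤ (1 + 4 ^ k * (2 * k + k * D) / (p : ℝ)) * u := by
      have e1 : (1 + 4 ^ k * (2 * k + k * D) / (p : ℝ)) * u =
          u + (4 ^ k * u) * (2 * k / (p : ℝ) + k * D / p) := by ring
      rw [e1]
      have h5 : 0 ≤ 2 * k / (p : ℝ) + k * D / p := by positivity
      have := mul_le_mul_of_nonneg_right hu4 h5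
      linarith
    have h6 : 0 ≤ 4 ^ k * (k * D) / (p : ℝ) ^ 2 := by positivity
    have h7 : 0 ≤ (1 + 4 ^ k * (2 * k + k * D) / (p : ℝ)) * u := by positivity
    calc 1 - 2 * ν / (p : ℝ) + ν * D / p ^ 2 ≤ 1 + k * D / (p : ℝ) := by linarith
      _ ≤ (1 + 4 ^ k * (2 * k + k * D) / (p : ℝ)) * u := g2
      _ ≤ (1 + 4 ^ k * (k * D) / (p : ℝ) ^ 2) * ((1 + 4 ^ k * (2 * k + k * D) / (p : ℝ)) * u) := by
          have := mul_nonneg h6 h7
          linarith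
      _ = _ := by ring
  · rw [if_neg hov, mul_one]
    have e1 : ν = k := by
      rw [hν, rk_X_eq h hp hov]
    rw [e1]
    exact g1

theorem trivK (F : ℤ[X]) (h : Fin k → ℕ) (p : ℕ) (hp : p.Prime) :
    ∑ y ∈ range p, ((1 - (rk F (sh y h) p : ℝ) / p) / (1 - 1 / (p : ℝ)) ^ k) ^ 2 ≤ (p : ℝ) * 4 ^ k := by
  have hp2 : (2 : ℝ) ≤ p := by exact_mod_cast hp.two_le
  have h4 : 1 / 2 ≤ 1 - 1 / (p : ℝ) := by
    have : 1 / (p : ℝ) ≤ 1 / 2 := one_div_le_one_div_of_le (by norm_num) hp2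
    linarith
  have : ∀ y ∈ range p, ((1 - (rk F (sh y h) p : ℝ) / p) / (1 - 1 / (p : ℝ)) ^ k) ^ 2 ≤ 4 ^ k := by
    intro y _
    have h2 := one_sub_nonneg F (sh y h) hp
    have h3 := one_sub_le_one F (sh y h) p
    have h40 : 0 < 1 - 1 / (p : ℝ) := by linarith
    have hpk : 0 < (1 - 1 / (p : ℝ)) ^ k := pow_pos h40 k
    have h5 : (1 - (rk F (sh y h) p : ℝ) / p) / (1 - 1 / (p : ℝ)) ^ k ≤ 2 ^ k := by
      rw [div_le_iff₀ hpk, ← mul_pow]
      have : (1 : ℝ) ≤ (2 * (1 - 1 / (p : ℝ))) ^ k := one_le_pow₀ (by linarith)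
      linarith
    have h6 : 0 ≤ (1 - (rk F (sh y h) p : ℝ) / p) / (1 - 1 / (p : ℝ)) ^ k := div_nonneg h2 hpk.le
    calc ((1 - (rk F (sh y h) p : ℝ) / p) / (1 - 1 / (p : ℝ)) ^ k) ^ 2 ≤ ((2 : ℝ) ^ k) ^ 2 :=
          pow_le_pow_left₀ h6 h5 2
      _ = 4 ^ k := by
          rw [← pow_mul, mul_comm k 2, pow_mul]
          norm_num
  refine (sum_le_sum this).trans ?_
  rw [sum_const, card_range, nsmul_eq_mul]

open Classical in
/-- the sum over a period -/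
theorem periodK (F : ℤ[X]) (hl : F.leadingCoeff ≠ 0) (hd : 1 ≤ F.natDegree) (h : Fin k → ℕ) (w : ℕ) :
    ∑ y ∈ range (∏ p ∈ pz w, p), (gk F (sh y h) w) ^ 2 ≤
      (∏ p ∈ pz w, p : ℕ) * ((4 ^ k) ^ F.leadingCoeff.natAbs * Real.exp (2 * (4 ^ k * (k * (k * F.natDegree)))) *
        ∏ p ∈ (pz w).filter (fun p => 1 < p ∧ ov h p), (1 + 4 ^ k * (2 * k + k * (k * F.natDegree)) / (p : ℝ))) := by
  have hSp : ∀ p ∈ pz w, p.Prime := fun p hp => (mem_pz.1 hp).2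
  have h1 : ∀ y : ℕ, (gk F (sh y h) w) ^ 2 =
      ∏ p ∈ pz w, ((1 - (rk F (sh y h) p : ℝ) / p) / (1 - 1 / (p : ℝ)) ^ k) ^ 2 := by
    intro y
    rw [gk_eq_prod, prod_pow]
  simp only [h1]
  rw [crt_prod (fun p y => ((1 - (rk F (sh y h) p : ℝ) / p) / (1 - 1 / (p : ℝ)) ^ k) ^ 2)
    (fun p y => by
      have := rk_per F h p y
      simp only at this ⊢
      rw [this]) (pz w) hSp]
  obtain ⟨l, hld⟩ : ∃ l, l = F.leadingCoeff.natAbs := ⟨_, rfl⟩
  obtain ⟨c1, hc1⟩ : ∃ c1 : ℝ, c1 = 4 ^ k * (k * (k * F.natDegree)) := ⟨_, rfl⟩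
  obtain ⟨c2, hc2⟩ : ∃ c2 : ℝ, c2 = 4 ^ k * (2 * k + k * (k * F.natDegree)) := ⟨_, rfl⟩
  have hc10 : 0 ≤ c1 := by rw [hc1]; positivity
  have hc20 : 0 ≤ c2 := by rw [hc2]; positivity
  have h2 : ∏ p ∈ pz w, ∑ y ∈ range p, ((1 - (rk F (sh y h) p : ℝ) / p) / (1 - 1 / (p : ℝ)) ^ k) ^ 2 ≤
      ∏ p ∈ pz w, ((p : ℝ) * ((if p ≤ l then 4 ^ k else 1) * ((1 + c1 / (p : ℝ) ^ 2) *
        (if ov h p then 1 + c2 / (p : ℝ) else 1)))) := by
    refine prod_le_prod (fun p _ => sum_nonneg fun n _ => sq_nonneg _) fun p hp => ?_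
    have hp' := hSp p hp
    have hi : (1 : ℝ) ≤ if ov h p then 1 + c2 / (p : ℝ) else 1 := by
      split_ifs
      · have : 0 ≤ c2 / (p : ℝ) := by positivity
        linarith
      · exact le_rfl
    by_cases hpl : p ≤ l
    · rw [if_pos hpl]
      refine (trivK F h p hp').trans ?_
      have h5 : (1 : ℝ) ≤ 1 + c1 / (p : ℝ) ^ 2 := by
        have : 0 ≤ c1 / (p : ℝ) ^ 2 := by positivity
        linarith
      have h6 := one_le_mul_of_one_le_of_one_le h5 hi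
      refine mul_le_mul_of_nonneg_left ?_ (Nat.cast_nonneg _)
      exact le_mul_of_one_le_right (by positivity) h6
    · rw [if_neg hpl, one_mul, hc1, hc2]
      exact locK F hl hd h p hp' (by omega)
  refine h2.trans ?_
  rw [prod_mul_distrib, prod_mul_distrib, prod_mul_distrib]
  rw [← hc1, ← hc2, ← hld]
  push_cast
  refine mul_le_mul_of_nonneg_left ?_ (prod_nonneg fun p _ => Nat.cast_nonneg _)
  rw [← mul_assoc]
  have hlast : ∏ p ∈ pz w, (if ov h p then 1 + c2 / (p : ℝ) else 1) =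
      ∏ p ∈ (pz w).filter (fun p => 1 < p ∧ ov h p), (1 + c2 / (p : ℝ)) := by
    rw [prod_filter]
    refine prod_congr rfl fun p hp => ?_
    have := (hSp p hp).one_lt
    by_cases ho : ov h p
    · rw [if_pos ho, if_pos ⟨this, ho⟩]
    · rw [if_neg ho, if_neg (fun h' => ho h'.2)]
  rw [hlast]
  refine mul_le_mul_of_nonneg_right ?_ (prod_nonneg fun p _ => by positivity)
  refine mul_le_mul ?_ ?_ (prod_nonneg fun p _ => by positivity) (by positivity)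
  · rw [prod_ite, prod_const, prod_const_one, mul_one]
    refine pow_le_pow_right₀ (one_le_pow₀ (by norm_num)) ?_
    calc #(filter (fun p => p ≤ l) (pz w)) ≤ #(Icc 1 l) := by
          refine card_le_card fun p hp => ?_
          rw [mem_filter] at hp
          rw [mem_Icc]
          exact ⟨(hSp p hp.1).one_le, hp.2⟩
      _ = l := by rw [Nat.card_Icc]; omega
  have h3 : ∏ p ∈ pz w, (1 + c1 / (p : ℝ) ^ 2) ≤ Real.exp (∑ p ∈ pz w, c1 / (p : ℝ) ^ 2) := by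
    rw [Real.exp_sum]
    refine prod_le_prod (fun p _ => by positivity) fun p _ => ?_
    have := Real.add_one_le_exp (c1 / (p : ℝ) ^ 2)
    linarith
  refine h3.trans (Real.exp_le_exp.2 ?_)
  have h4 : ∑ p ∈ pz w, c1 / (p : ℝ) ^ 2 ≤ ∑ p ∈ Ioo 0 (w + 1), c1 / (p : ℝ) ^ 2 := by
    refine sum_le_sum_of_subset_of_nonneg (fun p hp => ?_) fun _ _ _ => by positivity
    have h5 := mem_pz.1 hp
    rw [mem_Ioo]
    exact ⟨h5.2.pos, by omega⟩
  refine h4.trans ?_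
  have h5 := sum_Ioo_inv_sq_le (α := ℝ) 0 (w + 1)
  have h6 : ∑ p ∈ Ioo 0 (w + 1), c1 / (p : ℝ) ^ 2 = c1 * ∑ p ∈ Ioo 0 (w + 1), ((p : ℝ) ^ 2)⁻¹ := by
    rw [mul_sum]
    rfl
  rw [h6]
  norm_num at h5
  calc c1 * ∑ p ∈ Ioo 0 (w + 1), ((p : ℝ) ^ 2)⁻¹ ≤ c1 * 2 := by gcongr
    _ = 2 * c1 := by ring

theorem prodk_anti (F : ℤ[X]) (a : Fin k → ℕ) {w z : ℕ} (h : w ≤ z) :
    ∏ p ∈ pz z, (1 - (rk F a p : ℝ) / p) ≤ ∏ p ∈ pz w, (1 - (rk F a p : ℝ) / p) := by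
  have hsub : pz w ⊆ pz z := by
    intro p hp
    rw [mem_pz] at hp ⊢
    exact ⟨hp.1.trans h, hp.2⟩
  rw [← prod_sdiff hsub]
  have h1 : ∏ p ∈ pz z \ pz w, (1 - (rk F a p : ℝ) / p) ≤ 1 :=
    prod_le_one (fun p hp => one_sub_nonneg F a (mem_pz.1 (mem_sdiff.1 hp).1).2)
      fun p _ => one_sub_le_one F a p
  have h2 : 0 ≤ ∏ p ∈ pz w, (1 - (rk F a p : ℝ) / p) := prodk_nonneg F a w
  nlinarith

/-- **SQK.** -/
theorem sqk (F : ℤ[X]) (k : ℕ) (hl : F.leadingCoeff ≠ 0) (hd : 1 ≤ F.natDegree) (hOV : S_OV k) : S_SQK F k := by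
  classical
  intro E
  obtain ⟨c, hc, hlow⟩ := Pool.Agent.N792.Shp.V1_lower
  have hlim : Tendsto (fun N : ℕ => Real.log (N : ℝ)) atTop atTop :=
    Real.tendsto_log_atTop.comp (tendsto_natCast_atTop_atTop (R := ℝ))
  obtain ⟨N₀, hN₀⟩ := eventually_atTop.1 (hlim.eventually_ge_atTop 1000)
  obtain ⟨C', hC'0, hC'⟩ := hOV (4 ^ k * (2 * k + k * (k * F.natDegree))) (by positivity)
  obtain ⟨K, hK⟩ : ∃ K : ℝ, K = 1 + 2 * E / c := ⟨_, rfl⟩
  have hK1 : 1 ≤ K := by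
    rw [hK]
    have : 0 ≤ 2 * (E : ℝ) / c := by positivity
    linarith
  obtain ⟨B, hB⟩ : ∃ B : ℝ, B = (4 ^ k) ^ F.leadingCoeff.natAbs *
    Real.exp (2 * (4 ^ k * (k * (k * F.natDegree)))) := ⟨_, rfl⟩
  have hB1 : 1 ≤ B := by
    rw [hB]
    refine one_le_mul_of_one_le_of_one_le (one_le_pow₀ (one_le_pow₀ (by norm_num))) ?_
    exact Real.one_le_exp (by positivity)
  refine ⟨(K ^ k) ^ 2 * (2 * B) * (1 + C'), ?_, N₀ + 1, ?_⟩
  · have h2 : (1 : ℝ) ≤ (K ^ k) ^ 2 := one_le_pow₀ (one_le_pow₀ hK1)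
    refine one_le_mul_of_one_le_of_one_le (one_le_mul_of_one_le_of_one_le h2 ?_) ?_ <;> linarith
  intro A hA w hw2 hw H
  have hL := hN₀ A (by omega)
  obtain ⟨L, hLd⟩ : ∃ L : ℝ, L = Real.log (A : ℝ) := ⟨_, rfl⟩
  rw [← hLd] at hL hw
  have hA0 : (0 : ℝ) < A := by exact_mod_cast (by omega : 0 < A)
  obtain ⟨T, hT⟩ : ∃ T : ℕ, T = ⌊L / 8⌋₊ := ⟨_, rfl⟩
  have hT1 : (T : ℝ) ≤ L / 8 := by rw [hT]; exact Nat.floor_le (by linarith)
  have hT2 : L / 8 - 1 < T := by rw [hT]; exact Nat.sub_one_lt_floor _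
  have hT3 : 100 ≤ T := by
    have : (100 : ℝ) < T := by linarith
    exact_mod_cast this.le
  have hVV : ∀ z, Vz z = V1 z := fun z => rfl
  -- the ratio of the Mertens products
  obtain ⟨w0, hw0, hw0T, hw0w, hR⟩ : ∃ w0 : ℕ, 2 ≤ w0 ∧ w0 ≤ T ∧ w0 ≤ w ∧ Vz w0 ≤ K * Vz w := by
    rcases le_or_gt w T with h | h
    · refine ⟨w, hw2, h, le_rfl, ?_⟩
      have := Vz_pos w
      nlinarith
    · refine ⟨T, by omega, le_rfl, h.le, ?_⟩
      rw [hVV, hVV]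
      have h1 := Pool.Agent.N792.V1_le T (by omega)
      have h2 := hlow w (by omega)
      have hlT : 0 < Real.log T := Real.log_pos (by exact_mod_cast (by omega : 1 < T))
      have hlw : 0 < Real.log w := Real.log_pos (by exact_mod_cast (by omega : 1 < w))
      have h3 : Real.log w ≤ E * Real.log L := by
        have h4 := Real.log_le_log (by exact_mod_cast (by omega : 0 < w)) hw
        rw [Real.log_pow] at h4
        exact h4
      have h4 : Real.log L ≤ 2 * Real.log T := by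
        have h5 : L ≤ (T : ℝ) ^ 2 := by nlinarith
        have h6 := Real.log_le_log (by linarith) h5
        rw [Real.log_pow] at h6
        exact_mod_cast h6
      have h5 : 1 / Real.log T ≤ K * (c / Real.log w) := by
        rw [div_le_iff₀ hlT]
        have h6 : K * (c / Real.log w) * Real.log T = K * c * Real.log T / Real.log w := by ring
        rw [h6, le_div_iff₀ hlw, one_mul]
        have h7 : K * c = c + 2 * E := by
          rw [hK]
          field_simp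
        rw [h7]
        have h8 : (E : ℝ) * Real.log L ≤ E * (2 * Real.log T) := by gcongr
        have h9 : 0 ≤ c * Real.log T := by positivity
        linarith
      have h6 : K * (c / Real.log w) ≤ K * V1 w := mul_le_mul_of_nonneg_left h2 (by linarith)
      linarith
  -- the pointwise comparison
  have hV0 : 0 < Vz w0 := Vz_pos w0
  have hVw : 0 < Vz w := Vz_pos w
  have hpt : ∀ a : Fin k → ℕ, (gk F a w) ^ 2 ≤ (K ^ k) ^ 2 * (gk F a w0) ^ 2 := by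
    intro a
    rw [← mul_pow]
    refine pow_le_pow_left₀ (gk_nonneg F a w) ?_ 2
    have h1 := prodk_anti F a hw0w
    have h2 : (Vz w ^ k)⁻¹ ≤ K ^ k * (Vz w0 ^ k)⁻¹ := by
      rw [← div_eq_mul_inv, inv_eq_one_div, div_le_div_iff₀ (pow_pos hVw k) (pow_pos hV0 k), one_mul,
        ← mul_pow]
      exact pow_le_pow_left₀ hV0.le hR k
    unfold gk
    calc (∏ p ∈ pz w, (1 - (rk F a p : ℝ) / p)) / Vz w ^ k
        = (Vz w ^ k)⁻¹ * ∏ p ∈ pz w, (1 - (rk F a p : ℝ) / p) := by rw [div_eq_inv_mul]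
      _ ≤ (K ^ k * (Vz w0 ^ k)⁻¹) * ∏ p ∈ pz w0, (1 - (rk F a p : ℝ) / p) :=
          mul_le_mul h2 h1 (prodk_nonneg F a w) (by positivity)
      _ = _ := by ring
  obtain ⟨W, hW⟩ : ∃ W : ℕ, W = ∏ p ∈ pz w0, p := ⟨_, rfl⟩
  have hW0 : 0 < W := by rw [hW]; exact prod_pos fun p hp => (mem_pz.1 hp).2.pos
  have hW4 : W ≤ 4 ^ w0 := by
    have h1 := primorial_le_four_pow w0
    refine le_trans (le_of_eq ?_) h1
    rw [hW, primorial]
    refine prod_congr ?_ fun _ _ => rfl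
    ext p
    rw [mem_pz, mem_filter, mem_range]
    constructor
    · rintro ⟨h, hp⟩
      exact ⟨by omega, hp⟩
    · rintro ⟨h, hp⟩
      exact ⟨by omega, hp⟩
  have hWA : W ≤ A := by
    have h1 : ((4 ^ w0 : ℕ) : ℝ) ≤ A := by
      push_cast
      have h2 : (4 : ℝ) ^ w0 = Real.exp (w0 * Real.log 4) := by
        rw [mul_comm, Real.exp_mul, Real.exp_log (by norm_num), Real.rpow_natCast]
      have h20 : (A : ℝ) = Real.exp L := by rw [hLd, Real.exp_log hA0]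
      rw [h2, h20]
      refine Real.exp_le_exp.2 ?_
      have h3 : Real.log 4 ≤ 2 := by
        have : Real.log 4 = 2 * Real.log 2 := by
          rw [show (4 : ℝ) = 2 ^ 2 by norm_num, Real.log_pow]
          norm_num
        have := Real.log_two_lt_d9
        linarith
      have h4 : (w0 : ℝ) ≤ L / 8 := le_trans (by exact_mod_cast hw0T) hT1
      have h5 : 0 ≤ Real.log 4 := Real.log_nonneg (by norm_num)
      calc (w0 : ℝ) * Real.log 4 ≤ L / 8 * 2 := by gcongr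
        _ ≤ L := by linarith
    exact_mod_cast (le_trans (by exact_mod_cast hW4 : (W : ℝ) ≤ ((4 ^ w0 : ℕ) : ℝ)) h1)
  have hper : ∀ h : Fin k → ℕ, Function.Periodic (fun y : ℕ => (gk F (sh y h) w0) ^ 2) W := by
    intro h y
    have : gk F (sh (y + W) h) w0 = gk F (sh y h) w0 := by
      unfold gk
      congr 1
      refine prod_congr rfl fun p hp => ?_
      obtain ⟨m, hm⟩ := dvd_prod_of_mem (fun p => p) hp
      have h1 : rk F (sh (y + m * p) h) p = rk F (sh y h) p := ((rk_per F h p).nat_mul m) y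
      have h2 : y + W = y + m * p := by rw [hW, hm, mul_comm]
      rw [h2, h1]
    simp only
    rw [this]
  have hWr : (0 : ℝ) < W := by exact_mod_cast hW0
  have hone : ∀ h : Fin k → ℕ, ∑ y ∈ Icc 1 A, (gk F (sh y h) w) ^ 2 ≤ (K ^ k) ^ 2 * (2 * B) * A *
      ∏ p ∈ (pz w0).filter (fun p => 1 < p ∧ ov h p), (1 + 4 ^ k * (2 * k + k * (k * F.natDegree)) / (p : ℝ)) := by
    intro h
    have h1 := sum_Icc_le _ (fun y => sq_nonneg (gk F (sh y h) w0)) W A hW0 hWA (hper h)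
    have h2 := periodK F hl hd h w0
    rw [← hW, ← hB] at h2
    obtain ⟨P, hP⟩ : ∃ P : ℝ, P = ∏ p ∈ (pz w0).filter (fun p => 1 < p ∧ ov h p),
      (1 + 4 ^ k * (2 * k + k * (k * F.natDegree)) / (p : ℝ)) := ⟨_, rfl⟩
    rw [← hP] at h2 ⊢
    calc ∑ y ∈ Icc 1 A, (gk F (sh y h) w) ^ 2
        ≤ ∑ y ∈ Icc 1 A, (K ^ k) ^ 2 * (gk F (sh y h) w0) ^ 2 := sum_le_sum fun y _ => hpt _
      _ = (K ^ k) ^ 2 * ∑ y ∈ Icc 1 A, (gk F (sh y h) w0) ^ 2 := by rw [mul_sum]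
      _ ≤ (K ^ k) ^ 2 * (2 * A / W * ∑ y ∈ range W, (gk F (sh y h) w0) ^ 2) := by gcongr
      _ ≤ (K ^ k) ^ 2 * (2 * A / W * (W * (B * P))) := by gcongr
      _ = (K ^ k) ^ 2 * (2 * B) * A * P := by
        field_simp
  calc ∑ h ∈ inj k H, ∑ y ∈ Icc 1 A, (gk F (sh y h) w) ^ 2
      ≤ ∑ h ∈ inj k H, (K ^ k) ^ 2 * (2 * B) * A *
      ∏ p ∈ (pz w0).filter (fun p => 1 < p ∧ ov h p), (1 + 4 ^ k * (2 * k + k * (k * F.natDegree)) / (p : ℝ)) :=
        sum_le_sum fun h _ => hone h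
    _ = (K ^ k) ^ 2 * (2 * B) * A * ∑ h ∈ inj k H,
      ∏ p ∈ (pz w0).filter (fun p => 1 < p ∧ ov h p), (1 + 4 ^ k * (2 * k + k * (k * F.natDegree)) / (p : ℝ)) := by
        rw [mul_sum]
    _ ≤ (K ^ k) ^ 2 * (2 * B) * A * ((1 + C' / (1 : ℕ)) * (H : ℝ) ^ k) := by
        refine mul_le_mul_of_nonneg_left ?_ (by positivity)
        have := hC' 1 le_rfl w0 H
        convert this using 4
    _ = _ := by
        rw [Nat.cast_one, div_one]
        ring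

end Run7.h824.KT
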