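import Pool.Agent.Run7.h462.KT.Bas
import Pool.Agent.Run7.h994.PR.FM

/-!
# Project KT (helper462), piece FMK: the lower bound for the tuples on average (helper824)

Adapted from `Pool/Agent/Run7/h994/PR/FM.lean`.
-/

set_option autoImplicit false

namespace Run7.h824.KT

open Finset Filter Topology
open Run7.h462.BPG (lam)
open Run7.h462.KT (Pk sh inj mem_inj S_FMK)
open Run7.h994.PR (fi fi_nonneg fi_le_one P_eq sum_P_le window_one)
open scoped Polynomial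

/-- the first moment over the windows -/
theorem first {F : ℤ[X]} (h2 : 2 ≤ F.natDegree) (hFM : Run7.h462.BPG.S_FM F) (η : ℝ) (hη : 0 < η) (hη1 : η < 1) :
    ∃ c₀ : ℝ, 0 < c₀ ∧ ∀ ε : ℝ, 0 < ε → ∃ N₀ : ℕ, ∀ N : ℕ, N₀ ≤ N → ∀ A H : ℕ,
      (N : ℝ) ^ ((1 - lam F.natDegree) * (F.natDegree : ℝ) - 1 + ε) ≤ A →
      (A : ℝ) ≤ c₀ * (N : ℝ) ^ (F.natDegree - 1) → (H : ℝ) ≤ c₀ * A →
      2 ≤ N ∧ H ≤ A ∧ 0 < A ∧ (1 - η) * A ≤ ((A - H : ℕ) : ℝ) ∧
      H * ((A * N / (F.natDegree * Real.log N)) * (1 - η)) ≤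
        ∑ n ∈ Icc 1 N, ∑ y ∈ range (A - H), ∑ j ∈ range H, fi F n (y + 1 + j) := by
  obtain ⟨C, hC, NB, hB⟩ := sum_P_le F
  obtain ⟨d, hd⟩ : ∃ d : ℝ, d = F.natDegree := ⟨_, rfl⟩
  have hd2 : 2 ≤ d := by rw [hd]; exact_mod_cast h2
  have hd0 : 0 < d := by linarith
  obtain ⟨e₀, he₀⟩ : ∃ e₀ : ℝ, e₀ = (1 - lam F.natDegree) * d - 1 := ⟨_, rfl⟩
  have he₀2 : 1 / 2 ≤ e₀ := by
    have := Run7.h462.BPG.lam_le_quarter F.natDegree
    rw [he₀]
    nlinarith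
  obtain ⟨c₁, hc₁, hF⟩ := hFM (η / 12) (by positivity)
  obtain ⟨c₀, hc₀⟩ : ∃ c₀, c₀ = min c₁ (min (η / 12) (η / (24 * d * C))) := ⟨_, rfl⟩
  have hc₀0 : 0 < c₀ := by
    rw [hc₀]
    refine lt_min hc₁ (lt_min (by positivity) (by positivity))
  have hc₀1 : c₀ ≤ c₁ := by rw [hc₀]; exact min_le_left _ _
  have hc₀2 : c₀ ≤ η / 12 := by rw [hc₀]; exact (min_le_right _ _).trans (min_le_left _ _)
  have hc₀3 : c₀ ≤ η / (24 * d * C) := by rw [hc₀]; exact (min_le_right _ _).trans (min_le_right _ _)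
  refine ⟨c₀, hc₀0, fun ε hε => ?_⟩
  obtain ⟨NF, hNF⟩ := hF (ε / 2) (by positivity)
  have tend : ∀ a : ℝ, 0 < a → Tendsto (fun X : ℕ => (X : ℝ) ^ a) atTop atTop := fun a ha =>
    (tendsto_rpow_atTop ha).comp tendsto_natCast_atTop_atTop
  have ev1 : ∀ᶠ N : ℕ in atTop, (2 : ℝ) ≤ (N : ℝ) ^ (ε / 2) := (tend _ (by positivity)).eventually_ge_atTop _
  have ev2 : ∀ᶠ N : ℕ in atTop, 24 * d / η ≤ Real.log N :=
    (Real.tendsto_log_atTop.comp tendsto_natCast_atTop_atTop).eventually_ge_atTop _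
  have ev3 : ∀ᶠ N : ℕ in atTop, Real.log N ^ 2 ≤ (N : ℝ) ^ (1 / 4 : ℝ) := by
    have h := isLittleO_log_rpow_atTop (show (0 : ℝ) < 1 / 8 by norm_num)
    have h2 := h.bound one_pos
    have h3 := tendsto_natCast_atTop_atTop.eventually (h2.and (eventually_ge_atTop (1 : ℝ)))
    filter_upwards [h3] with N hN
    obtain ⟨g1, g2⟩ := hN
    have g3 : 0 ≤ Real.log (N : ℝ) := Real.log_nonneg g2
    rw [one_mul, Real.norm_of_nonneg g3, Real.norm_of_nonneg (by positivity)] at g1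
    calc Real.log N ^ 2 ≤ ((N : ℝ) ^ (1 / 8 : ℝ)) ^ 2 := by gcongr
      _ = (N : ℝ) ^ (1 / 4 : ℝ) := by
          rw [← Real.rpow_natCast, ← Real.rpow_mul (by linarith)]
          norm_num
  obtain ⟨N₀, hN₀⟩ := eventually_atTop.mp (ev1.and (ev2.and ev3))
  refine ⟨N₀ + NF + NB + 2, fun N hN A H hA1 hA2 hH2 => ?_⟩
  obtain ⟨g1, g2, g3⟩ := hN₀ N (by omega)
  rw [← hd, ← he₀] at hA1
  rw [← hd]
  have hNr : (2 : ℝ) ≤ N := by exact_mod_cast (show 2 ≤ N by omega)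
  have hN1 : (1 : ℝ) ≤ N := by linarith
  have hN0 : (0 : ℝ) < N := by linarith
  obtain ⟨L, hL⟩ : ∃ L, L = Real.log N := ⟨_, rfl⟩
  rw [← hL] at g2 g3 ⊢
  have hL0 : 0 < L := by rw [hL]; exact Real.log_pos (by linarith)
  have hA0 : (0 : ℝ) < A := lt_of_lt_of_le (Real.rpow_pos_of_pos hN0 _) hA1
  have hAhalf : (N : ℝ) ^ (1 / 2 : ℝ) ≤ A := by
    refine le_trans ?_ hA1
    apply Real.rpow_le_rpow_of_exponent_le hN1
    linarith
  have hH0 : (0 : ℝ) ≤ H := Nat.cast_nonneg _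
  have hHA : (H : ℝ) ≤ η / 12 * A := hH2.trans (by gcongr)
  have hHA1 : (H : ℝ) ≤ A := by nlinarith
  have hHAn : H ≤ A := by exact_mod_cast hHA1
  -- Y
  obtain ⟨Y, hY⟩ : ∃ Y, Y = A - H := ⟨_, rfl⟩
  have hYr : (Y : ℝ) = A - H := by rw [hY, Nat.cast_sub hHAn]
  have hYA : Y + H ≤ A := by omega
  have hYlow : (1 - η / 12) * A ≤ Y := by rw [hYr]; linarith
  have hY2 : (N : ℝ) ^ (e₀ + ε / 2) ≤ Y := by
    have h3 : (N : ℝ) ^ (e₀ + ε / 2) * (N : ℝ) ^ (ε / 2) ≤ A := by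
      rw [← Real.rpow_add hN0]
      refine le_trans (le_of_eq ?_) hA1
      congr 1
      ring
    have h4 : (N : ℝ) ^ (e₀ + ε / 2) * 2 ≤ A := by
      refine le_trans ?_ h3
      gcongr
    have h5 : (1 / 2 : ℝ) * A ≤ (1 - η / 12) * A := by
      apply mul_le_mul_of_nonneg_right _ hA0.le
      linarith
    linarith
  have hY3 : (Y : ℝ) ≤ c₁ * (N : ℝ) ^ (F.natDegree - 1) := by
    have h3 : (Y : ℝ) ≤ A := by rw [hYr]; linarith
    refine h3.trans (hA2.trans ?_)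
    gcongr
  have hFY := hNF N (by omega) Y (by rw [← hd, ← he₀]; exact hY2) hY3
  rw [← hd, ← hL] at hFY
  -- the number of the pairs for the small shifts
  obtain ⟨U, hU⟩ : ∃ U, U = A * N / (d * L) := ⟨_, rfl⟩
  have hU0 : 0 < U := by rw [hU]; positivity
  have hPH : ∑ a ∈ Icc 1 H, (Run7.h462.BPD.P F a N : ℝ) ≤ η / 24 * U := by
    rcases le_total (H : ℝ) (A / L ^ 2) with h | h
    · calc ∑ a ∈ Icc 1 H, (Run7.h462.BPD.P F a N : ℝ) ≤ ∑ a ∈ Icc 1 H, (N : ℝ) := by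
            apply Finset.sum_le_sum
            intro a _
            rw [P_eq]
            calc ∑ n ∈ Icc 1 N, fi F n a ≤ ∑ n ∈ Icc 1 N, (1 : ℝ) :=
                  Finset.sum_le_sum fun n _ => fi_le_one F n a
              _ = N := by simp
        _ = H * N := by rw [Finset.sum_const, Nat.card_Icc, nsmul_eq_mul, Nat.add_sub_cancel]
        _ ≤ (A / L ^ 2) * N := by gcongr
        _ = (d / L) * U := by rw [hU]; field_simp
        _ ≤ η / 24 * U := by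
            apply mul_le_mul_of_nonneg_right _ hU0.le
            rw [div_le_iff₀ hL0]
            rw [div_le_iff₀ hη] at g2
            linarith
    · have hH14 : (N : ℝ) ^ (1 / 4 : ℝ) ≤ H := by
        refine le_trans ?_ h
        rw [le_div_iff₀ (by positivity)]
        calc (N : ℝ) ^ (1 / 4 : ℝ) * L ^ 2 ≤ (N : ℝ) ^ (1 / 4 : ℝ) * (N : ℝ) ^ (1 / 4 : ℝ) := by gcongr
          _ = (N : ℝ) ^ (1 / 2 : ℝ) := by rw [← Real.rpow_add hN0]; norm_num
          _ ≤ A := hAhalf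
      have h3 := hB N (by omega) H hH14
      rw [← hL] at h3
      calc ∑ a ∈ Icc 1 H, (Run7.h462.BPD.P F a N : ℝ) ≤ C * (N * H / L) := h3
        _ ≤ C * (N * (c₀ * A) / L) := by gcongr
        _ = (c₀ * (d * C)) * U := by rw [hU]; field_simp
        _ ≤ η / 24 * U := by
            apply mul_le_mul_of_nonneg_right _ hU0.le
            calc c₀ * (d * C) ≤ (η / (24 * d * C)) * (d * C) := by gcongr
              _ = η / 24 := by field_simp
  have hPY : (1 - η / 6) * U ≤ ∑ a ∈ Icc 1 Y, (Run7.h462.BPD.P F a N : ℝ) := by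
    refine le_trans ?_ hFY
    have h3 : (1 - η / 12) * U ≤ Y * N / (d * L) := by
      rw [hU]
      calc (1 - η / 12) * (A * N / (d * L)) = ((1 - η / 12) * A) * N / (d * L) := by ring
        _ ≤ Y * N / (d * L) := by gcongr
    calc (1 - η / 6) * U ≤ (1 - η / 12) * ((1 - η / 12) * U) := by
          have h6 : 0 ≤ η ^ 2 / 144 * U := by positivity
          have h7 : (1 - η / 12) * ((1 - η / 12) * U) = (1 - η / 6) * U + η ^ 2 / 144 * U := by ring
          linarith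
      _ ≤ (1 - η / 12) * (Y * N / (d * L)) := by
          apply mul_le_mul_of_nonneg_left h3
          linarith
  rw [← hY, ← hU]
  refine ⟨by omega, hHAn, by exact_mod_cast hA0, ?_, ?_⟩
  · have : η / 12 * A ≤ η * A := by
      apply mul_le_mul_of_nonneg_right _ hA0.le
      linarith
    linarith
  have h3 : ∑ n ∈ Icc 1 N, (H : ℝ) * (∑ a ∈ Icc 1 Y, fi F n a - ∑ a ∈ Icc 1 H, fi F n a) ≤
      ∑ n ∈ Icc 1 N, ∑ y ∈ range Y, ∑ j ∈ range H, fi F n (y + 1 + j) :=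
    Finset.sum_le_sum fun n _ => window_one (fi F n) (fi_nonneg F n) Y H
  refine le_trans ?_ h3
  rw [← Finset.mul_sum, Finset.sum_sub_distrib]
  apply mul_le_mul_of_nonneg_left _ hH0
  have e1 : ∑ n ∈ Icc 1 N, ∑ a ∈ Icc 1 Y, fi F n a = ∑ a ∈ Icc 1 Y, (Run7.h462.BPD.P F a N : ℝ) := by
    rw [Finset.sum_comm]
    exact Finset.sum_congr rfl fun a _ => (P_eq F a N).symm
  have e2 : ∑ n ∈ Icc 1 N, ∑ a ∈ Icc 1 H, fi F n a = ∑ a ∈ Icc 1 H, (Run7.h462.BPD.P F a N : ℝ) := by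
    rw [Finset.sum_comm]
    exact Finset.sum_congr rfl fun a _ => (P_eq F a N).symm
  rw [e1, e2]
  nlinarith

/-- the number of the tuples of distinct elements of a set -/
theorem card_tuples (k H : ℕ) (p : ℕ → Prop) [DecidablePred p] :
    (#((range H).filter p)).descFactorial k ≤ #((inj k H).filter (fun h => ∀ i, p (h i))) := by
  classical
  have h1 : (#((range H).filter p)).descFactorial k = Fintype.card (Fin k ↪ ((range H).filter p : Finset ℕ)) := by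
    rw [Fintype.card_embedding_eq, Fintype.card_coe, Fintype.card_fin]
  rw [h1, ← Finset.card_univ]
  apply Finset.card_le_card_of_injOn (fun e => fun i => ((e i : ((range H).filter p : Finset ℕ)) : ℕ))
  · intro e _
    rw [Finset.mem_coe, mem_filter, mem_inj]
    have h2 : ∀ i, ((e i : ((range H).filter p : Finset ℕ)) : ℕ) < H ∧ p (e i : ((range H).filter p : Finset ℕ)) := by
      intro i
      have := (e i).2
      rw [mem_filter, mem_range] at this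
      exact this
    refine ⟨⟨fun i => (h2 i).1, fun i j hij => e.injective (Subtype.ext hij)⟩, fun i => (h2 i).2⟩
  · intro e _ f _ hef
    apply Function.Embedding.ext
    intro i
    exact Subtype.ext (congrFun hef i)

theorem sum_Icc_shift (Y : ℕ) (g : ℕ → ℝ) : ∑ y ∈ Icc 1 Y, g y = ∑ y ∈ range Y, g (y + 1) := by
  rw [Finset.range_eq_Ico, Finset.sum_Ico_add' g 0 Y 1]
  rfl

theorem Pk_eq (F : ℤ[X]) {k : ℕ} (a : Fin k → ℕ) (N : ℕ) : (Pk F a N : ℝ) =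
    ∑ n ∈ Icc 1 N, if ∀ i, Nat.Prime (F.eval (n : ℤ) + a i).toNat then (1 : ℝ) else 0 := by
  unfold Pk
  rw [Finset.card_filter]
  push_cast
  rfl

/-- the sum over the tuples, by windows -/
theorem sum_tuples (F : ℤ[X]) (k H Y N : ℕ) :
    ∑ n ∈ Icc 1 N, ∑ y ∈ range Y, (((#((range H).filter (fun j : ℕ =>
      Nat.Prime (F.eval (n : ℤ) + ((y + 1 + j : ℕ) : ℤ)).toNat))).descFactorial k : ℕ) : ℝ) ≤
    ∑ h ∈ inj k H, ∑ y ∈ Icc 1 Y, (Pk F (sh y h) N : ℝ) := by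
  have h1 : ∑ h ∈ inj k H, ∑ y ∈ Icc 1 Y, (Pk F (sh y h) N : ℝ) =
      ∑ n ∈ Icc 1 N, ∑ y ∈ range Y, (#((inj k H).filter (fun h => ∀ i,
        Nat.Prime (F.eval (n : ℤ) + ((y + 1 + h i : ℕ) : ℤ)).toNat)) : ℝ) := by
    have e1 : ∀ h ∈ inj k H, ∑ y ∈ Icc 1 Y, (Pk F (sh y h) N : ℝ) = ∑ n ∈ Icc 1 N, ∑ y ∈ range Y,
        if ∀ i, Nat.Prime (F.eval (n : ℤ) + ((y + 1 + h i : ℕ) : ℤ)).toNat then (1 : ℝ) else 0 := by
      intro h _
      simp only [Pk_eq]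
      rw [sum_Icc_shift, Finset.sum_comm]
      rfl
    rw [Finset.sum_congr rfl e1, Finset.sum_comm]
    refine Finset.sum_congr rfl fun n _ => ?_
    rw [Finset.sum_comm]
    refine Finset.sum_congr rfl fun y _ => ?_
    rw [card_filter]
    push_cast
    rfl
  rw [h1]
  refine Finset.sum_le_sum fun n _ => Finset.sum_le_sum fun y _ => ?_
  exact_mod_cast card_tuples k H (fun j : ℕ => Nat.Prime (F.eval (n : ℤ) + ((y + 1 + j : ℕ) : ℤ)).toNat)

/-- the falling factorial from below -/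
theorem desc_low (X k : ℕ) (hk : 1 ≤ k) : (max ((X : ℝ) - k) 0) ^ k ≤ ((X.descFactorial k : ℕ) : ℝ) := by
  rcases le_total X k with h | h
  · have : (X : ℝ) - k ≤ 0 := by
      have : (X : ℝ) ≤ k := by exact_mod_cast h
      linarith
    rw [max_eq_right this, zero_pow (by omega)]
    exact Nat.cast_nonneg _
  · have h0 : (0 : ℝ) ≤ (X : ℝ) - k := by
      have : (k : ℝ) ≤ X := by exact_mod_cast h
      linarith
    rw [max_eq_left h0]
    have h1 := Nat.pow_sub_le_descFactorial X k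
    have h2 : (((X + 1 - k) ^ k : ℕ) : ℝ) ≤ ((X.descFactorial k : ℕ) : ℝ) := by exact_mod_cast h1
    refine le_trans ?_ h2
    rw [Nat.cast_pow, Nat.cast_sub (by omega)]
    push_cast
    exact pow_le_pow_left₀ h0 (by linarith) k

/-- **FMK.** -/
theorem fmk (F : ℤ[X]) (k : ℕ) (h2 : 2 ≤ F.natDegree) (hFM : Run7.h462.BPG.S_FM F) : S_FMK F k := by
  intro η hη
  rcases le_or_gt 1 η with hη1 | hη1
  · refine ⟨1, 1, one_pos, one_pos, fun ε hε => ⟨0, fun N _ A H _ _ _ _ => ?_⟩⟩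
    have h1 : (1 - η) * (A * (H : ℝ) ^ k * (N / (F.natDegree * Real.log N) ^ k)) ≤ 0 := by
      have hl : 0 ≤ Real.log (N : ℝ) := Real.log_natCast_nonneg N
      apply mul_nonpos_of_nonpos_of_nonneg (by linarith)
      positivity
    exact h1.trans (Finset.sum_nonneg fun h _ => Finset.sum_nonneg fun _ _ => Nat.cast_nonneg _)
  obtain ⟨θ, hθ⟩ : ∃ θ : ℝ, θ = η / (2 * (k + 1)) := ⟨_, rfl⟩
  have hk0 : (0 : ℝ) ≤ k := Nat.cast_nonneg _
  have hθ0 : 0 < θ := by rw [hθ]; positivity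
  have hθη : θ ≤ η := by
    rw [hθ]
    apply div_le_self hη.le
    linarith
  have hθk : 2 * k * θ ≤ η := by
    rw [hθ, mul_div_assoc', div_le_iff₀ (by positivity)]
    nlinarith
  have hθ2 : 2 * θ ≤ 1 := by
    rw [hθ, mul_div_assoc', div_le_iff₀ (by positivity)]
    nlinarith
  obtain ⟨d, hd⟩ : ∃ d : ℝ, d = F.natDegree := ⟨_, rfl⟩
  have hd2 : 2 ≤ d := by rw [hd]; exact_mod_cast h2
  have hd0 : 0 < d := by linarith
  obtain ⟨c₀, hc₀, hfirst⟩ := first h2 hFM θ hθ0 (by linarith)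
  refine ⟨c₀, (k + 1) * d / θ, hc₀, by positivity, fun ε hε => ?_⟩
  obtain ⟨N₀, hN₀⟩ := hfirst ε hε
  refine ⟨N₀, fun N hN A H hA1 hA2 hH1 hH2 => ?_⟩
  obtain ⟨hN2, hHA, hA0, hYlow, hT⟩ := hN₀ N hN A H hA1 hA2 hH2
  rw [← hd] at hT ⊢
  obtain ⟨L, hL⟩ : ∃ L, L = Real.log N := ⟨_, rfl⟩
  rw [← hL] at hH1 hT ⊢
  have hNr : (2 : ℝ) ≤ N := by exact_mod_cast hN2
  have hN0 : (0 : ℝ) < N := by linarith
  have hL0 : 0 < L := by rw [hL]; exact Real.log_pos (by linarith)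
  have hA0r : (0 : ℝ) < A := by exact_mod_cast hA0
  obtain ⟨Y, hY⟩ : ∃ Y, Y = A - H := ⟨_, rfl⟩
  rw [← hY] at hYlow hT ⊢
  have hYA : (Y : ℝ) ≤ A := by
    have : Y ≤ A := by omega
    exact_mod_cast this
  have hY0 : (0 : ℝ) ≤ Y := Nat.cast_nonneg _
  refine le_trans ?_ (sum_tuples F k H Y N)
  rcases Nat.eq_zero_or_pos k with hk | hk
  · subst hk
    simp only [Nat.descFactorial_zero, Nat.cast_one, pow_zero, mul_one, div_one, sum_const, card_range,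
      Nat.card_Icc, Nat.add_sub_cancel, nsmul_eq_mul]
    have h3 : (1 - η) * A ≤ Y := by
      refine le_trans ?_ hYlow
      apply mul_le_mul_of_nonneg_right _ hA0r.le
      linarith
    calc (1 - η) * ((A : ℝ) * N) = N * ((1 - η) * A) := by ring
      _ ≤ N * Y := by gcongr
  -- `X (n, y)`
  obtain ⟨X, hX⟩ : ∃ X : ℕ × ℕ → ℕ, X = fun q => #((range H).filter (fun j : ℕ =>
      Nat.Prime (F.eval (q.1 : ℤ) + ((q.2 + 1 + j : ℕ) : ℤ)).toNat)) := ⟨_, rfl⟩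
  obtain ⟨s, hs⟩ : ∃ s : Finset (ℕ × ℕ), s = Icc 1 N ×ˢ range Y := ⟨_, rfl⟩
  have hsc : ((#s : ℕ) : ℝ) = N * Y := by
    rw [hs, Finset.card_product, Nat.card_Icc, Finset.card_range, Nat.add_sub_cancel]
    push_cast
    rfl
  have hsumX : ∑ q ∈ s, (X q : ℝ) = ∑ n ∈ Icc 1 N, ∑ y ∈ range Y, ∑ j ∈ range H, fi F n (y + 1 + j) := by
    rw [hs, Finset.sum_product, hX]
    refine Finset.sum_congr rfl fun n _ => Finset.sum_congr rfl fun y _ => ?_
    simp only [card_filter, fi]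
    push_cast
    rfl
  have hgoal : ∑ n ∈ Icc 1 N, ∑ y ∈ range Y, (((#((range H).filter (fun j : ℕ =>
      Nat.Prime (F.eval (n : ℤ) + ((y + 1 + j : ℕ) : ℤ)).toNat))).descFactorial k : ℕ) : ℝ) =
      ∑ q ∈ s, (((X q).descFactorial k : ℕ) : ℝ) := by
    rw [hs, Finset.sum_product, hX]
  rw [hgoal]
  rw [← hsumX] at hT
  have hlow : ∑ q ∈ s, (max ((X q : ℝ) - k) 0) ^ k ≤ ∑ q ∈ s, (((X q).descFactorial k : ℕ) : ℝ) :=
    Finset.sum_le_sum fun q _ => desc_low (X q) k hk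
  refine le_trans ?_ hlow
  -- the mean
  obtain ⟨V, hV⟩ : ∃ V, V = (H : ℝ) * (A * N / (d * L)) := ⟨_, rfl⟩
  have hV0 : 0 ≤ V := by rw [hV]; positivity
  have hkNY : k * (N * Y) ≤ θ * V := by
    have h3 : (k + 1) * d * L ≤ θ * H := by
      rw [div_mul_eq_mul_div, div_le_iff₀ hθ0] at hH1
      linarith
    have h4 : (k : ℝ) * (N * Y) ≤ (k + 1) * (N * A) := by
      apply mul_le_mul (by linarith) _ (by positivity) (by positivity)
      gcongr
    refine h4.trans ?_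
    calc ((k : ℝ) + 1) * (N * A) = ((k + 1) * d * L) * (A * N / (d * L)) := by field_simp
      _ ≤ (θ * H) * (A * N / (d * L)) := by
          apply mul_le_mul_of_nonneg_right h3
          positivity
      _ = θ * V := by rw [hV]; ring
  have hZ : V * (1 - 2 * θ) ≤ ∑ q ∈ s, max ((X q : ℝ) - k) 0 := by
    have h3 : ∑ q ∈ s, ((X q : ℝ) - k) ≤ ∑ q ∈ s, max ((X q : ℝ) - k) 0 :=
      Finset.sum_le_sum fun q _ => le_max_left _ _
    rw [Finset.sum_sub_distrib, Finset.sum_const, nsmul_eq_mul, hsc] at h3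
    have h4 : V * (1 - θ) ≤ ∑ q ∈ s, (X q : ℝ) := by
      refine le_trans (le_of_eq ?_) hT
      rw [hV]
      ring
    linarith
  obtain ⟨m, rfl⟩ : ∃ m, k = m + 1 := ⟨k - 1, by omega⟩
  have hpm := pow_sum_div_card_le_sum_pow (s := s) (f := fun q => max ((X q : ℝ) - ((m + 1 : ℕ) : ℝ)) 0)
    (fun q _ => le_max_right _ _) m
  refine le_trans ?_ hpm
  rw [hsc]
  have h1θ : 0 ≤ 1 - 2 * θ := by linarith
  have hY00 : 0 < (Y : ℝ) := by
    have : 0 < (1 - θ) * A := by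
      apply mul_pos _ hA0r
      linarith
    linarith
  have hNY : 0 < (N : ℝ) * Y := mul_pos hN0 hY00
  rw [le_div_iff₀ (pow_pos hNY m)]
  have hbern : 1 - η ≤ (1 - 2 * θ) ^ (m + 1) := by
    have h5 := one_add_mul_le_pow (show (-2 : ℝ) ≤ -(2 * θ) by linarith) (m + 1)
    have e1 : (1 + -(2 * θ)) = 1 - 2 * θ := by ring
    rw [e1] at h5
    refine le_trans ?_ h5
    have e2 : ((m + 1 : ℕ) : ℝ) * -(2 * θ) = -(2 * ((m + 1 : ℕ) : ℝ) * θ) := by ring
    rw [e2]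
    linarith
  calc (1 - η) * (A * (H : ℝ) ^ (m + 1) * (N / (d * L) ^ (m + 1))) * (N * Y) ^ m
      ≤ (1 - 2 * θ) ^ (m + 1) * (A * (H : ℝ) ^ (m + 1) * (N / (d * L) ^ (m + 1))) * (N * A) ^ m := by
        gcongr
    _ = (V * (1 - 2 * θ)) ^ (m + 1) := by
        have e : V ^ (m + 1) = (H : ℝ) ^ (m + 1) * ((A : ℝ) ^ m * A * ((N : ℝ) ^ m * N)) / (d * L) ^ (m + 1) := by
          rw [hV, mul_pow, div_pow, mul_pow (A : ℝ) N, pow_succ (A : ℝ), pow_succ (N : ℝ)]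
          ring
        rw [mul_pow V, e, mul_pow (N : ℝ) A]
        ring
    _ ≤ (∑ q ∈ s, max ((X q : ℝ) - ((m + 1 : ℕ) : ℝ)) 0) ^ (m + 1) :=
        pow_le_pow_left₀ (mul_nonneg hV0 h1θ) hZ _

end Run7.h824.KT
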